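import Mathlib
import Pool.Agent.H220.K.Stm

set_option autoImplicit false

open Set Filter Topology Metric
open scoped ContDiff ComplexConjugate

namespace Pool.Agent.H407.K

open Pool.Agent.H220.K

theorem subset_comp {X : Type*} [TopologicalSpace X] {O S : Set X} {x₀ : X}
    (hS : IsPreconnected S) (hSO : S ⊆ O) (hne : (S ∩ connectedComponentIn O x₀).Nonempty) :
    S ⊆ connectedComponentIn O x₀ := by
  obtain ⟨y, hyS, hyC⟩ := hne
  rw [connectedComponentIn_eq hyC]
  exact hS.subset_connectedComponentIn hyS hSO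

/-- near a boundary point where `dV ≠ 0` the component of `{V < 0}` is `{V < 0}` -/
theorem s_comp : S_comp := by
  intro V O x₀ z hO hz hev hV hdV
  set C := connectedComponentIn O x₀ with hC
  have hCo : IsOpen C := hO.connectedComponentIn
  have hCO : C ⊆ O := connectedComponentIn_subset _ _
  have hzcl : z ∈ closure C := frontier_subset_closure hz
  have hzC : z ∉ C := by
    rw [hCo.frontier_eq] at hz
    exact hz.2
  have hzO : z ∉ O := by
    intro h
    obtain ⟨ε, hε, hball⟩ := Metric.isOpen_iff.1 hO z h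
    obtain ⟨y, hyC, hy⟩ := Metric.mem_closure_iff.1 hzcl ε hε
    have h1 : ball z ε ⊆ C := subset_comp (convex_ball z ε).isPreconnected hball
      ⟨y, by rw [mem_ball, dist_comm]; exact hy, hyC⟩
    exact hzC (h1 (mem_ball_self hε))
  have hVc : ContinuousAt V z := hV.continuousAt
  have hVz0 : 0 ≤ V z := by
    by_contra h
    exact hzO (hev.self_of_nhds.2 (not_le.1 h))
  have hVz1 : V z ≤ 0 := by
    by_contra h
    have h1 : ∀ᶠ y in 𝓝 z, y ∉ O := by
      filter_upwards [hev, hVc.eventually (lt_mem_nhds (not_le.1 h))] with y h2 h3 h4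
      exact absurd (h2.1 h4) (not_lt.2 h3.le)
    obtain ⟨ε, hε, hball⟩ := Metric.eventually_nhds_iff.1 h1
    obtain ⟨y, hyC, hy⟩ := Metric.mem_closure_iff.1 hzcl ε hε
    exact hball (by rwa [dist_comm]) (hCO hyC)
  have hVz : V z = 0 := le_antisymm hVz1 hVz0
  obtain ⟨e, he⟩ : ∃ e, 0 < fderiv ℝ V z e := by
    by_contra h
    push Not at h
    apply hdV
    refine ContinuousLinearMap.ext fun e => ?_
    have h1 := h e
    have h2 := h (-e)
    rw [map_neg] at h2
    show fderiv ℝ V z e = 0
    linarith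
  have hfd : ContinuousAt (fderiv ℝ V) z :=
    (hV.fderiv_right (m := 0) (by norm_num)).continuousAt
  have hfe : ∀ᶠ y in 𝓝 z, 0 < fderiv ℝ V y e := by
    have h1 : ContinuousAt (fun y => fderiv ℝ V y e) z := hfd.clm_apply continuousAt_const
    exact h1.eventually (lt_mem_nhds he)
  have hdiff : ∀ᶠ y in 𝓝 z, DifferentiableAt ℝ V y := by
    filter_upwards [hV.eventually (by simp)] with y hy
    exact hy.differentiableAt (by simp)
  obtain ⟨r, hr, hball⟩ := Metric.eventually_nhds_iff.1 (hev.and (hfe.and hdiff))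
  -- decrease
  obtain ⟨τ, hτ, hτe⟩ : ∃ τ : ℝ, 0 < τ ∧ τ * ‖e‖ < r / 2 := by
    refine ⟨r / (2 * (‖e‖ + 1)), by positivity, ?_⟩
    rw [div_mul_eq_mul_div, div_lt_div_iff₀ (by positivity) (by norm_num)]
    nlinarith [norm_nonneg e]
  have hin : ∀ y ∈ ball z (r / 2), ∀ t ∈ Icc (0 : ℝ) τ, dist (y - t • e) z < r := by
    intro y hy t ht
    calc dist (y - t • e) z ≤ dist (y - t • e) y + dist y z := dist_triangle _ _ _
      _ = t * ‖e‖ + dist y z := by
          rw [dist_eq_norm, sub_sub_cancel_left, norm_neg, norm_smul, Real.norm_of_nonneg ht.1]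
      _ < r / 2 + r / 2 := by
          have h1 : t * ‖e‖ ≤ τ * ‖e‖ := mul_le_mul_of_nonneg_right ht.2 (norm_nonneg e)
          have h2 : dist y z < r / 2 := hy
          linarith
      _ = r := by ring
  have hanti : ∀ y ∈ ball z (r / 2), StrictAntiOn (fun t : ℝ => V (y - t • e)) (Icc 0 τ) := by
    intro y hy
    have hder : ∀ t ∈ Icc (0 : ℝ) τ, HasDerivAt (fun t : ℝ => V (y - t • e))
        (-(fderiv ℝ V (y - t • e) e)) t := by
      intro t ht
      have h1 : HasDerivAt (fun t : ℝ => y - t • e) (-e) t := by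
        have h2 : HasDerivAt (fun t : ℝ => t • e) e t := by
          have h3 := (hasDerivAt_id t).smul_const e
          rw [one_smul] at h3
          exact h3
        have h4 := h2.const_sub y
        exact h4
      have h5 := (hball (hin y hy t ht)).2.2.hasFDerivAt
      have h6 := h5.comp_hasDerivAt t h1
      rw [map_neg] at h6
      exact h6
    refine strictAntiOn_of_deriv_neg (convex_Icc 0 τ) (fun t ht => (hder t ht).continuousAt.continuousWithinAt) ?_
    intro t ht
    have ht' : t ∈ Icc (0 : ℝ) τ := interior_subset ht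
    rw [(hder t ht').deriv]
    have := (hball (hin y hy t ht')).2.1
    linarith
  have hzr : z ∈ ball z (r / 2) := mem_ball_self (by positivity)
  have hVτ : V (z - τ • e) < 0 := by
    have h1 := hanti z hzr (left_mem_Icc.2 hτ.le) (right_mem_Icc.2 hτ.le) hτ
    simp only [zero_smul, sub_zero] at h1
    rwa [hVz] at h1
  have hcτ : ContinuousAt V (z - τ • e) :=
    (hball (hin z hzr τ (right_mem_Icc.2 hτ.le))).2.2.continuousAt
  obtain ⟨s₀, hs₀, hs₀b⟩ := Metric.eventually_nhds_iff.1 (hcτ.eventually (gt_mem_nhds hVτ))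
  set s := min s₀ (r / 2) with hs
  have hs0 : 0 < s := lt_min hs₀ (by positivity)
  have hsr : s ≤ r / 2 := min_le_right _ _
  have hsub : ball (z - τ • e) s ⊆ O := by
    intro w hw
    have h1 : V w < 0 := hs₀b (lt_of_lt_of_le hw (min_le_left _ _))
    have h2 : dist w z < r := by
      calc dist w z ≤ dist w (z - τ • e) + dist (z - τ • e) z := dist_triangle _ _ _
        _ < s + r / 2 := by
            have h3 : dist (z - τ • e) z = τ * ‖e‖ := by
              rw [dist_eq_norm, sub_sub_cancel_left, norm_neg, norm_smul, Real.norm_of_nonneg hτ.le]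
            have h4 : dist w (z - τ • e) < s := hw
            linarith
        _ ≤ r := by linarith
    exact (hball h2).1.2 h1
  -- the sets
  have hSy : ∀ y ∈ ball z s, V y < 0 →
      IsPreconnected ((fun t : ℝ => y - t • e) '' Icc 0 τ ∪ ball (z - τ • e) s) ∧
      ((fun t : ℝ => y - t • e) '' Icc 0 τ ∪ ball (z - τ • e) s) ⊆ O := by
    intro y hy hVy
    have hy2 : y ∈ ball z (r / 2) := ball_subset_ball hsr hy
    constructor
    · refine IsPreconnected.union (y - τ • e) ⟨τ, right_mem_Icc.2 hτ.le, rfl⟩ ?_ ?_ ?_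
      · rw [mem_ball, dist_sub_right]
        exact hy
      · refine isPreconnected_Icc.image _ (Continuous.continuousOn ?_)
        fun_prop
      · exact (convex_ball _ _).isPreconnected
    · refine union_subset ?_ hsub
      rintro _ ⟨t, ht, rfl⟩
      refine (hball (hin y hy2 t ht)).1.2 ?_
      have h1 := (hanti y hy2).antitoneOn (left_mem_Icc.2 hτ.le) ht ht.1
      simp only [zero_smul, sub_zero] at h1
      exact lt_of_le_of_lt h1 hVy
  have hself : ∀ y : E3, y ∈ (fun t : ℝ => y - t • e) '' Icc 0 τ := fun y =>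
    ⟨0, left_mem_Icc.2 hτ.le, by simp⟩
  obtain ⟨y', hy'C, hy'⟩ := Metric.mem_closure_iff.1 hzcl s hs0
  have hy's : y' ∈ ball z s := by rw [mem_ball, dist_comm]; exact hy'
  have hmem : ∀ y ∈ ball z s, dist y z < r := fun y hy =>
    lt_of_lt_of_le hy (by linarith)
  have hVy' : V y' < 0 := (hball (hmem y' hy's)).1.1 (hCO hy'C)
  have hbC : ball (z - τ • e) s ⊆ C := by
    obtain ⟨h1, h2⟩ := hSy y' hy's hVy'
    exact subset_union_right.trans (subset_comp h1 h2 ⟨y', Or.inl (hself y'), hy'C⟩)
  filter_upwards [ball_mem_nhds z hs0] with y hy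
  constructor
  · intro h
    exact (hball (hmem y hy)).1.1 (hCO h)
  · intro h
    obtain ⟨h1, h2⟩ := hSy y hy h
    exact subset_comp h1 h2 ⟨z - τ • e, Or.inr (mem_ball_self hs0), hbC (mem_ball_self hs0)⟩
      (Or.inl (hself y))

end Pool.Agent.H407.K
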